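import Pool.Agent.Lib.MP_fcd94d_an_PR.Hol

/-!
Derivatives on complex manifolds in a chart.
-/

set_option autoImplicit false
set_option linter.unusedSectionVars false
set_option linter.style.haveILetI false

open Complex Metric Set Filter Topology
open scoped Manifold

namespace Pool.Agent.ImmPR

variable {E : Type*} [NormedAddCommGroup E] [NormedSpace ℂ E]
variable {M : Type*} [TopologicalSpace M] [ChartedSpace E M] [IsManifold 𝓘(ℂ, E) 1 M]

section Chart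

variable {G : Type*} [NormedAddCommGroup G] [NormedSpace ℂ G]

/-- The derivative of the map `g : M → G` at `x` in the direction of the tangent vector `v`. -/
noncomputable def dd {E : Type*} [NormedAddCommGroup E] [NormedSpace ℂ E] {M : Type*}
    [TopologicalSpace M] [ChartedSpace E M] {G : Type*} [NormedAddCommGroup G] [NormedSpace ℂ G]
    (g : M → G) (x : M) (v : TangentSpace 𝓘(ℂ, E) x) : G :=
  mfderiv 𝓘(ℂ, E) 𝓘(ℂ, G) g x v

theorem chart_mdiff (x₀ x : M) (hx : x ∈ (chartAt E x₀).source) :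
    MDifferentiableAt 𝓘(ℂ, E) 𝓘(ℂ, E) (chartAt E x₀) x :=
  (mdifferentiableOn_atlas (I := 𝓘(ℂ, E)) (chart_mem_atlas E x₀) x hx).mdifferentiableAt
    ((chartAt E x₀).open_source.mem_nhds hx)

theorem chart_symm_mdiff (x₀ : M) (y : E) (hy : y ∈ (chartAt E x₀).target) :
    MDifferentiableAt 𝓘(ℂ, E) 𝓘(ℂ, E) (chartAt E x₀).symm y :=
  (mdifferentiableOn_atlas_symm (I := 𝓘(ℂ, E)) (chart_mem_atlas E x₀) y hy).mdifferentiableAt
    ((chartAt E x₀).open_target.mem_nhds hy)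

theorem fun_diff {g : M → G} (hg : MDifferentiable 𝓘(ℂ, E) 𝓘(ℂ, G) g) (x₀ : M) :
    DifferentiableOn ℂ (g ∘ (chartAt E x₀).symm) (chartAt E x₀).target := by
  rw [← mdifferentiableOn_iff_differentiableOn]
  exact hg.comp_mdifferentiableOn (mdifferentiableOn_atlas_symm (chart_mem_atlas E x₀))

/-- the derivative in the chart -/
theorem deriv_eq {g : M → G} (hg : MDifferentiable 𝓘(ℂ, E) 𝓘(ℂ, G) g) (x₀ x : M)
    (hx : x ∈ (chartAt E x₀).source) (v : TangentSpace 𝓘(ℂ, E) x) :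
    dd g x v =
      fderiv ℂ (g ∘ (chartAt E x₀).symm) (chartAt E x₀ x) (dd (chartAt E x₀) x v) := by
  have h1 := chart_mdiff x₀ x hx
  have ht : chartAt E x₀ x ∈ (chartAt E x₀).target := (chartAt E x₀).map_source hx
  have h2 : DifferentiableAt ℂ (g ∘ (chartAt E x₀).symm) (chartAt E x₀ x) :=
    (fun_diff hg x₀ _ ht).differentiableAt ((chartAt E x₀).open_target.mem_nhds ht)
  have h3 : g =ᶠ[𝓝 x] (g ∘ (chartAt E x₀).symm) ∘ (chartAt E x₀) := by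
    filter_upwards [(chartAt E x₀).open_source.mem_nhds hx] with y hy
    simp [(chartAt E x₀).left_inv hy]
  unfold dd
  rw [h3.mfderiv_eq, mfderiv_comp x h2.mdifferentiableAt h1]
  rw [← mfderiv_eq_fderiv]
  rfl

theorem chart_surj (x₀ x : M) (hx : x ∈ (chartAt E x₀).source) (u : E) :
    ∃ v : TangentSpace 𝓘(ℂ, E) x, dd (chartAt E x₀) x v = u := by
  have ht : chartAt E x₀ x ∈ (chartAt E x₀).target := (chartAt E x₀).map_source hx
  have hs : (chartAt E x₀).symm (chartAt E x₀ x) = x := (chartAt E x₀).left_inv hx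
  have h2 := chart_symm_mdiff x₀ _ ht
  have h1 : MDifferentiableAt 𝓘(ℂ, E) 𝓘(ℂ, E) (chartAt E x₀)
      ((chartAt E x₀).symm (chartAt E x₀ x)) := by
    rw [hs]
    exact chart_mdiff x₀ x hx
  have h3 : ((chartAt E x₀) ∘ (chartAt E x₀).symm) =ᶠ[𝓝 (chartAt E x₀ x)] id := by
    filter_upwards [(chartAt E x₀).open_target.mem_nhds ht] with y hy
    exact (chartAt E x₀).right_inv hy
  have h4 := mfderiv_comp (chartAt E x₀ x) h1 h2
  rw [h3.mfderiv_eq, mfderiv_id] at h4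
  have h5 : u = mfderiv 𝓘(ℂ, E) 𝓘(ℂ, E) (chartAt E x₀) ((chartAt E x₀).symm (chartAt E x₀ x))
      (mfderiv 𝓘(ℂ, E) 𝓘(ℂ, E) (chartAt E x₀).symm (chartAt E x₀ x) u) :=
    congrArg (fun A => A u) h4
  rw [hs] at h5
  exact ⟨_, h5.symm⟩

end Chart

omit [IsManifold 𝓘(ℂ, E) 1 M] in
theorem dd_vsub {G : Type*} [NormedAddCommGroup G] [NormedSpace ℂ G] (u : M → G) (x : M)
    (v w : TangentSpace 𝓘(ℂ, E) x) : dd u x (v - w) = dd u x v - dd u x w := map_sub _ v w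

omit [IsManifold 𝓘(ℂ, E) 1 M] in
theorem dd_vsmul {G : Type*} [NormedAddCommGroup G] [NormedSpace ℂ G] (u : M → G) (x : M) (c : ℂ)
    (v : TangentSpace 𝓘(ℂ, E) x) : dd u x (c • v) = c • dd u x v := map_smul _ c v

section Rules

variable {G G' : Type*} [NormedAddCommGroup G] [NormedSpace ℂ G] [NormedAddCommGroup G']
  [NormedSpace ℂ G']

omit [IsManifold 𝓘(ℂ, E) 1 M] in
theorem dd_comp {u : M → G} {Φ : G → G'} {x : M} (hu : MDifferentiableAt 𝓘(ℂ, E) 𝓘(ℂ, G) u x)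
    (hΦ : DifferentiableAt ℂ Φ (u x)) (v : TangentSpace 𝓘(ℂ, E) x) :
    dd (fun z => Φ (u z)) x v = fderiv ℂ Φ (u x) (dd u x v) := by
  unfold dd
  have := mfderiv_comp x hΦ.mdifferentiableAt hu
  rw [mfderiv_eq_fderiv] at this
  exact congrArg (fun A => A v) this

omit [IsManifold 𝓘(ℂ, E) 1 M] in
theorem dd_prod {u : M → G} {w : M → G'} {x : M} (hu : MDifferentiableAt 𝓘(ℂ, E) 𝓘(ℂ, G) u x)
    (hw : MDifferentiableAt 𝓘(ℂ, E) 𝓘(ℂ, G') w x) (v : TangentSpace 𝓘(ℂ, E) x) :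
    dd (fun z => (u z, w z)) x v = (dd u x v, dd w x v) := by
  have h1 : MDifferentiableAt 𝓘(ℂ, E) 𝓘(ℂ, G × G') (fun z => (u z, w z)) x := hu.prodMk_space hw
  have e1 := dd_comp h1 (Φ := Prod.fst) differentiableAt_fst v
  have e2 := dd_comp h1 (Φ := Prod.snd) differentiableAt_snd v
  rw [fderiv_fst] at e1
  rw [fderiv_snd] at e2
  exact Prod.ext e1.symm e2.symm

omit [IsManifold 𝓘(ℂ, E) 1 M] in
theorem dd_pull {E' : Type*} [NormedAddCommGroup E'] [NormedSpace ℂ E'] {N : Type*}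
    [TopologicalSpace N] [ChartedSpace E' N] {r : N → M} {u : M → G} {y : N}
    (hr : MDifferentiableAt 𝓘(ℂ, E') 𝓘(ℂ, E) r y) (hu : MDifferentiableAt 𝓘(ℂ, E) 𝓘(ℂ, G) u (r y))
    (t : TangentSpace 𝓘(ℂ, E') y) :
    dd (fun z => u (r z)) y t = dd u (r y) (mfderiv 𝓘(ℂ, E') 𝓘(ℂ, E) r y t) := by
  unfold dd
  exact congrArg (fun A => A t) (mfderiv_comp y hu hr)

omit [IsManifold 𝓘(ℂ, E) 1 M] in
theorem dd_eval {u : M → G →L[ℂ] G'} {w : M → G} {x : M}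
    (hu : MDifferentiableAt 𝓘(ℂ, E) 𝓘(ℂ, G →L[ℂ] G') u x)
    (hw : MDifferentiableAt 𝓘(ℂ, E) 𝓘(ℂ, G) w x) (v : TangentSpace 𝓘(ℂ, E) x) :
    MDifferentiableAt 𝓘(ℂ, E) 𝓘(ℂ, G') (fun z => u z (w z)) x ∧
    dd (fun z => u z (w z)) x v = dd u x v (w x) + u x (dd w x v) := by
  have h1 : MDifferentiableAt 𝓘(ℂ, E) 𝓘(ℂ, (G →L[ℂ] G') × G) (fun z => (u z, w z)) x :=
    hu.prodMk_space hw
  have h2 : HasFDerivAt (fun p : (G →L[ℂ] G') × G => p.1 p.2) _ (u x, w x) :=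
    hasFDerivAt_fst.clm_apply hasFDerivAt_snd
  have h3 := dd_comp (Φ := fun p : (G →L[ℂ] G') × G => p.1 p.2) h1 h2.differentiableAt v
  refine ⟨h2.differentiableAt.mdifferentiableAt.comp x h1, ?_⟩
  rw [h2.fderiv, dd_prod hu hw] at h3
  rw [h3]
  simp [add_comm]

omit [IsManifold 𝓘(ℂ, E) 1 M] in
theorem dd_smul {u : M → ℂ} {w : M → G} {x : M}
    (hu : MDifferentiableAt 𝓘(ℂ, E) 𝓘(ℂ, ℂ) u x)
    (hw : MDifferentiableAt 𝓘(ℂ, E) 𝓘(ℂ, G) w x) (v : TangentSpace 𝓘(ℂ, E) x) :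
    MDifferentiableAt 𝓘(ℂ, E) 𝓘(ℂ, G) (fun z => u z • w z) x ∧
    dd (fun z => u z • w z) x v = u x • dd w x v + dd u x v • w x := by
  have h1 : MDifferentiableAt 𝓘(ℂ, E) 𝓘(ℂ, ℂ × G) (fun z => (u z, w z)) x :=
    hu.prodMk_space hw
  have hf1 : HasFDerivAt (Prod.fst : ℂ × G → ℂ) (ContinuousLinearMap.fst ℂ ℂ G) (u x, w x) :=
    hasFDerivAt_fst
  have hf2 : HasFDerivAt (Prod.snd : ℂ × G → G) (ContinuousLinearMap.snd ℂ ℂ G) (u x, w x) :=
    hasFDerivAt_snd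
  have h2 := hf1.fun_smul hf2
  have h3 := dd_comp (Φ := fun p : ℂ × G => p.1 • p.2) h1 h2.differentiableAt v
  refine ⟨h2.differentiableAt.mdifferentiableAt.comp x h1, ?_⟩
  rw [h2.fderiv, dd_prod hu hw] at h3
  rw [h3]
  simp

omit [IsManifold 𝓘(ℂ, E) 1 M] in
theorem dd_add {u w : M → G} {x : M}
    (hu : MDifferentiableAt 𝓘(ℂ, E) 𝓘(ℂ, G) u x)
    (hw : MDifferentiableAt 𝓘(ℂ, E) 𝓘(ℂ, G) w x) (v : TangentSpace 𝓘(ℂ, E) x) :
    MDifferentiableAt 𝓘(ℂ, E) 𝓘(ℂ, G) (fun z => u z + w z) x ∧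
    dd (fun z => u z + w z) x v = dd u x v + dd w x v := by
  have h1 : MDifferentiableAt 𝓘(ℂ, E) 𝓘(ℂ, G × G) (fun z => (u z, w z)) x :=
    hu.prodMk_space hw
  have hf1 : HasFDerivAt (Prod.fst : G × G → G) (ContinuousLinearMap.fst ℂ G G) (u x, w x) :=
    hasFDerivAt_fst
  have hf2 : HasFDerivAt (Prod.snd : G × G → G) (ContinuousLinearMap.snd ℂ G G) (u x, w x) :=
    hasFDerivAt_snd
  have h2 := hf1.fun_add hf2
  have h3 := dd_comp (Φ := fun p : G × G => p.1 + p.2) h1 h2.differentiableAt v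
  refine ⟨h2.differentiableAt.mdifferentiableAt.comp x h1, ?_⟩
  rw [h2.fderiv, dd_prod hu hw] at h3
  rw [h3]
  simp

omit [IsManifold 𝓘(ℂ, E) 1 M] in
theorem dd_const (c : G) (x : M) (v : TangentSpace 𝓘(ℂ, E) x) : dd (fun _ : M => c) x v = 0 := by
  unfold dd
  rw [mfderiv_const]
  rfl

end Rules

end Pool.Agent.ImmPR
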