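import Mathlib

/-!
Derivatives of holomorphic functions of several variables are holomorphic.
-/

set_option autoImplicit false
set_option linter.unusedSectionVars false
set_option linter.style.haveILetI false

open Complex Metric Set Filter Topology MeasureTheory
open scoped Real Interval

namespace Pool.Agent.ImmPR

section

variable {E : Type*} [NormedAddCommGroup E] [NormedSpace ℂ E]
variable {G : Type*} [NormedAddCommGroup G] [NormedSpace ℂ G] [CompleteSpace G]

theorem line_diff {U : Set E} (hU : IsOpen U) {f : E → G} (hf : DifferentiableOn ℂ f U) (x v : E)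
    {r : ℝ} (h : ∀ z ∈ closedBall (0 : ℂ) r, x + z • v ∈ U) :
    DifferentiableOn ℂ (fun z : ℂ => f (x + z • v)) (closedBall 0 r) := by
  intro z hz
  have h1 : DifferentiableAt ℂ f (x + z • v) := (hf _ (h z hz)).differentiableAt
    (hU.mem_nhds (h z hz))
  have h2 : DifferentiableAt ℂ (fun z : ℂ => x + z • v) z := by fun_prop
  exact (DifferentiableAt.comp z h1 h2).differentiableWithinAt

theorem fderiv_eq_deriv {U : Set E} (hU : IsOpen U) {f : E → G} (hf : DifferentiableOn ℂ f U)
    {x : E} (hx : x ∈ U) (v : E) :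
    fderiv ℂ f x v = deriv (fun z : ℂ => f (x + z • v)) 0 := by
  have h1 : HasFDerivAt f (fderiv ℂ f x) (x + (0 : ℂ) • v) := by
    rw [zero_smul, add_zero]
    exact ((hf _ hx).differentiableAt (hU.mem_nhds hx)).hasFDerivAt
  have h2 : HasDerivAt (fun z : ℂ => x + z • v) v 0 := by
    have := ((hasDerivAt_id (0 : ℂ)).smul_const v).const_add x
    simpa using this
  exact (h1.comp_hasDerivAt (0 : ℂ) h2).deriv.symm

theorem norm_fderiv_le {U : Set E} (hU : IsOpen U) {f : E → G} (hf : DifferentiableOn ℂ f U)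
    {x : E} {δ C : ℝ} (hδ : 0 < δ) (hb : closedBall x δ ⊆ U)
    (hC : ∀ y ∈ closedBall x δ, ‖f y‖ ≤ C) : ‖fderiv ℂ f x‖ ≤ C / δ := by
  have hC0 : 0 ≤ C := (norm_nonneg _).trans (hC x (mem_closedBall_self hδ.le))
  refine ContinuousLinearMap.opNorm_le_bound _ (by positivity) fun v => ?_
  by_cases hv : v = 0
  · simp [hv]
  have hv' : 0 < ‖v‖ := norm_pos_iff.2 hv
  have hin : ∀ z ∈ closedBall (0 : ℂ) (δ / ‖v‖), x + z • v ∈ closedBall x δ := by
    intro z hz
    rw [mem_closedBall, dist_eq_norm, add_sub_cancel_left, norm_smul]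
    rw [mem_closedBall, dist_zero_right, le_div_iff₀ hv'] at hz
    exact hz
  rw [fderiv_eq_deriv hU hf (hb (mem_closedBall_self hδ.le)) v]
  have h1 := norm_deriv_le_of_forall_mem_sphere_norm_le (c := 0) (R := δ / ‖v‖) (C := C)
    (f := fun z : ℂ => f (x + z • v)) (by positivity)
    (((line_diff hU hf x v fun z hz => hb (hin z hz)).mono
      closure_ball_subset_closedBall).diffContOnCl)
    (fun z hz => hC _ (hin z (sphere_subset_closedBall hz)))
  calc _ ≤ C / (δ / ‖v‖) := h1
    _ = C / δ * ‖v‖ := by field_simp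

end

section

variable {E : Type*} [NormedAddCommGroup E] [NormedSpace ℂ E] [FiniteDimensional ℂ E]
variable {G : Type*} [NormedAddCommGroup G] [NormedSpace ℂ G] [FiniteDimensional ℂ G]

theorem diff_fderiv_apply {U : Set E} (hU : IsOpen U) {f : E → G} (hf : DifferentiableOn ℂ f U)
    (v : E) : DifferentiableOn ℂ (fun x => fderiv ℂ f x v) U := by
  intro x₀ hx₀
  apply DifferentiableAt.differentiableWithinAt
  haveI : ProperSpace E := FiniteDimensional.proper ℂ E
  haveI : CompleteSpace G := FiniteDimensional.complete ℂ G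
  obtain ⟨ε, hε, hεU⟩ := nhds_basis_closedBall.mem_iff.1 (hU.mem_nhds hx₀)
  obtain ⟨δ, hδ, hδε⟩ : ∃ δ : ℝ, 0 < δ ∧ 3 * δ = ε := ⟨ε / 3, by positivity, by ring⟩
  obtain ⟨C, hC⟩ := (isCompact_closedBall x₀ ε).exists_bound_of_continuousOn
    (hf.continuousOn.mono hεU)
  obtain ⟨r, hr, hrv⟩ : ∃ r : ℝ, 0 < r ∧ r * ‖v‖ ≤ δ := by
    refine ⟨δ / (‖v‖ + 1), by positivity, ?_⟩
    rw [div_mul_eq_mul_div, div_le_iff₀ (by positivity)]
    nlinarith [norm_nonneg v]
  have hin : ∀ x ∈ ball x₀ δ, ∀ z ∈ closedBall (0 : ℂ) r, x + z • v ∈ closedBall x₀ (2 * δ) := by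
    intro x hx z hz
    rw [mem_closedBall, dist_eq_norm]
    rw [mem_ball, dist_eq_norm] at hx
    rw [mem_closedBall, dist_zero_right] at hz
    calc ‖x + z • v - x₀‖ = ‖(x - x₀) + z • v‖ := by congr 1; abel
      _ ≤ ‖x - x₀‖ + ‖z • v‖ := norm_add_le _ _
      _ ≤ δ + r * ‖v‖ := by
          rw [norm_smul]
          gcongr
      _ ≤ 2 * δ := by linarith
  have hsub : closedBall x₀ (2 * δ) ⊆ U := (closedBall_subset_closedBall (by linarith)).trans hεU
  have hbd : ∀ y ∈ closedBall x₀ (2 * δ), ‖fderiv ℂ f y‖ ≤ C / δ := by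
    intro y hy
    have hy2 : closedBall y δ ⊆ closedBall x₀ ε := by
      apply closedBall_subset_closedBall'
      rw [mem_closedBall] at hy
      linarith
    exact norm_fderiv_le hU hf hδ (hy2.trans hεU) fun z hz => hC z (hy2 hz)
  set c : ℝ → ℂ := fun θ => deriv (circleMap 0 r) θ * (1 / (circleMap 0 r θ - 0) ^ 2) with hc
  have hcm : ∀ θ, circleMap 0 r θ ∈ closedBall (0 : ℂ) r := fun θ =>
    circleMap_mem_closedBall 0 hr.le θ
  have hcc : Continuous c := by
    have h0 : ∀ θ, (circleMap 0 r θ - 0) ^ 2 ≠ 0 := fun θ => by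
      rw [sub_zero]
      exact pow_ne_zero 2 (circleMap_ne_center hr.ne')
    have h1 : Continuous fun θ => deriv (circleMap 0 r) θ := by
      simp only [deriv_circleMap]
      fun_prop
    have h2 : Continuous fun θ => (circleMap 0 r θ - 0) ^ 2 := by fun_prop
    exact h1.mul (continuous_const.div h2 h0)
  have hev : (fun x => fderiv ℂ f x v) =ᶠ[𝓝 x₀] fun x => (2 * π * I : ℂ)⁻¹ •
      ∫ θ in (0)..2 * π, c θ • f (x + circleMap 0 r θ • v) := by
    filter_upwards [ball_mem_nhds x₀ hδ] with x hx
    have hxU : x ∈ U := hsub (by simpa using hin x hx 0 (mem_closedBall_self hr.le))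
    rw [fderiv_eq_deriv hU hf hxU v, eq_inv_smul_iff₀ two_pi_I_ne_zero]
    rw [← (line_diff hU hf x v fun z hz => hsub (hin x hx z hz)).deriv_eq_smul_circleIntegral hr]
    rw [circleIntegral]
    congr 1
    funext θ
    rw [hc, smul_smul]
  have hmeas : AEStronglyMeasurable (fun θ => c θ • fderiv ℂ f (x₀ + circleMap 0 r θ • v))
      (volume.restrict (Ι (0 : ℝ) (2 * π))) := by
    borelize E
    borelize (E →L[ℂ] G)
    haveI : FiniteDimensional ℂ (E →L[ℂ] G) := inferInstance
    haveI : ProperSpace (E →L[ℂ] G) := FiniteDimensional.proper ℂ _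
    have h1 : Measurable fun θ : ℝ => fderiv ℂ f (x₀ + circleMap 0 r θ • v) :=
      (measurable_fderiv ℂ f).comp (by
        have : Continuous fun θ : ℝ => x₀ + circleMap 0 r θ • v := by fun_prop
        exact this.measurable)
    exact (hcc.stronglyMeasurable.smul h1.stronglyMeasurable).aestronglyMeasurable
  have hcont : ∀ x ∈ ball x₀ δ, Continuous fun θ : ℝ => c θ • f (x + circleMap 0 r θ • v) := by
    intro x hx
    refine hcc.smul ?_
    have h1 : Continuous fun θ : ℝ => x + circleMap 0 r θ • v := by fun_prop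
    exact hf.continuousOn.comp_continuous h1 fun θ => hsub (hin x hx _ (hcm θ))
  have key : HasFDerivAt (fun x => ∫ θ in (0)..2 * π, c θ • f (x + circleMap 0 r θ • v))
      (∫ θ in (0)..2 * π, c θ • fderiv ℂ f (x₀ + circleMap 0 r θ • v)) x₀ := by
    refine intervalIntegral.hasFDerivAt_integral_of_dominated_of_fderiv_le
      (F' := fun x θ => c θ • fderiv ℂ f (x + circleMap 0 r θ • v))
      (bound := fun θ => ‖c θ‖ * (C / δ)) (ball_mem_nhds x₀ hδ) ?_ ?_ hmeas ?_ ?_ ?_
    · filter_upwards [ball_mem_nhds x₀ hδ] with x hx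
      exact (hcont x hx).aestronglyMeasurable
    · exact (hcont x₀ (mem_ball_self hδ)).intervalIntegrable _ _
    · refine ae_of_all _ fun θ _ x hx => ?_
      rw [norm_smul]
      exact mul_le_mul_of_nonneg_left (hbd _ (hin x hx _ (hcm θ))) (norm_nonneg _)
    · exact (hcc.norm.mul continuous_const).intervalIntegrable _ _
    · refine ae_of_all _ fun θ _ x hx => ?_
      have hy := hsub (hin x hx _ (hcm θ))
      have h1 : HasFDerivAt f (fderiv ℂ f (x + circleMap 0 r θ • v)) (x + circleMap 0 r θ • v) :=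
        ((hf _ hy).differentiableAt (hU.mem_nhds hy)).hasFDerivAt
      have h2 : HasFDerivAt (fun x : E => x + circleMap 0 r θ • v) (ContinuousLinearMap.id ℂ E) x :=
        (hasFDerivAt_id x).add_const _
      have h3 := HasFDerivAt.comp x (g := f) h1 h2
      rw [ContinuousLinearMap.comp_id] at h3
      exact h3.const_smul (c θ)
  exact (key.differentiableAt.const_smul _).congr_of_eventuallyEq hev

/-- differentiability of a family of linear maps is tested on vectors -/
theorem diff_clm {X : Type*} [NormedAddCommGroup X] [NormedSpace ℂ X] {L : X → E →L[ℂ] G}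
    {x : X} (h : ∀ v, DifferentiableAt ℂ (fun y => L y v) x) : DifferentiableAt ℂ L x := by
  let b := Module.finBasis ℂ E
  have h1 : L = fun y => ∑ i, (LinearMap.toContinuousLinearMap (b.coord i)).smulRight
      (L y (b i)) := by
    funext y
    ext v
    rw [sum_apply]
    simp only [ContinuousLinearMap.smulRight_apply, LinearMap.coe_toContinuousLinearMap',
      Module.Basis.coord_apply]
    conv_lhs => rw [← b.sum_repr v]
    simp only [map_sum, map_smul]
  rw [h1]
  refine DifferentiableAt.fun_sum fun i _ => ?_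
  exact (ContinuousLinearMap.smulRightL ℂ E G
    (LinearMap.toContinuousLinearMap (b.coord i))).differentiableAt.comp x (h (b i))

theorem diff_fderiv {U : Set E} (hU : IsOpen U) {f : E → G} (hf : DifferentiableOn ℂ f U)
    {x : E} (hx : x ∈ U) : DifferentiableAt ℂ (fun x => fderiv ℂ f x) x :=
  diff_clm fun v => (diff_fderiv_apply hU hf v x hx).differentiableAt (hU.mem_nhds hx)

end

end Pool.Agent.ImmPR
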