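import Pool.Agent.Lib.MP_fcd94d_an_PR.Xi

/-!
The immersion of the total space of the normal bundle.
-/

set_option autoImplicit false
set_option linter.unusedSectionVars false

open Complex Metric Set Filter Topology
open scoped Manifold

namespace Pool.Agent.ImmPR

/-- `(e^t - 1)/t` -/
noncomputable def phi : ℂ → ℂ := dslope Complex.exp 0

theorem phi_mul (t : ℂ) : t * phi t = Complex.exp t - 1 := by
  have h := sub_smul_dslope Complex.exp 0 t
  rw [sub_zero, Complex.exp_zero, smul_eq_mul] at h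
  exact h

theorem phi_zero : phi 0 = 1 := by
  unfold phi
  rw [dslope_same, Complex.deriv_exp, Complex.exp_zero]

theorem phi_diff : Differentiable ℂ phi := by
  have h : DifferentiableOn ℂ phi univ :=
    (Complex.differentiableOn_dslope univ_mem).2 Complex.differentiable_exp.differentiableOn
  exact differentiableOn_univ.1 h

theorem phi_deriv (t : ℂ) : phi t + t * deriv phi t = Complex.exp t := by
  have h1 : HasDerivAt (fun t => t * phi t) (1 * phi t + t * deriv phi t) t :=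
    (hasDerivAt_id t).mul (phi_diff t).hasDerivAt
  have h2 : HasDerivAt (fun t => t * phi t) (Complex.exp t) t := by
    have h3 : (fun t => t * phi t) = fun t => Complex.exp t - 1 := funext phi_mul
    rw [h3]
    exact (Complex.hasDerivAt_exp t).sub_const 1
  rw [← h1.unique h2, one_mul]

variable {E : Type*} [NormedAddCommGroup E] [NormedSpace ℂ E] [FiniteDimensional ℂ E]
variable {M : Type*} [TopologicalSpace M] [ChartedSpace E M] [IsManifold 𝓘(ℂ, E) 1 M]
variable {W : Type*} [NormedAddCommGroup W] [NormedSpace ℂ W] [FiniteDimensional ℂ W]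
variable {Y : Type*} [NormedAddCommGroup Y] [NormedSpace ℂ Y] [FiniteDimensional ℂ Y]
variable {f : M → W} {g : M → Y} {P : M → Y →L[ℂ] Y}
variable {E' : Type*} [NormedAddCommGroup E'] [NormedSpace ℂ E'] {N : Type*}
    [TopologicalSpace N] [ChartedSpace E' N]

theorem Dat.immersion (h : Dat (E := E) f g P)
    (hd : Module.finrank ℂ E = Module.finrank ℂ W + 1) (hY : Module.finrank ℂ Y = 2)
    {r : N → M} {y : N → Y} (hr : MDifferentiable 𝓘(ℂ, E') 𝓘(ℂ, E) r)
    (hy : MDifferentiable 𝓘(ℂ, E') 𝓘(ℂ, Y) y) (hPy : ∀ n, P (r n) (y n) = y n)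
    (hinj : ∀ (n : N) (t : TangentSpace 𝓘(ℂ, E') n), mfderiv 𝓘(ℂ, E') 𝓘(ℂ, E) r n t = 0 →
      dd y n t = 0 → t = 0) :
    ∃ F : N → W × Y, MDifferentiable 𝓘(ℂ, E') 𝓘(ℂ, W × Y) F ∧
      ∀ (n : N) (t : TangentSpace 𝓘(ℂ, E') n), dd F n t = 0 → t = 0 := by
  obtain ⟨ξ, hξ, hξg⟩ := h.exists_xi hd hY
  -- the function `Λ`
  have hfr : MDifferentiable 𝓘(ℂ, E') 𝓘(ℂ, W) (fun n => f (r n)) := h.hf.comp hr
  have hgr : MDifferentiable 𝓘(ℂ, E') 𝓘(ℂ, Y) (fun n => g (r n)) := h.hg.comp hr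
  have hξr : MDifferentiable 𝓘(ℂ, E') 𝓘(ℂ, Y →L[ℂ] ℂ) (fun n => ξ (r n)) := hξ.comp hr
  have hPr : MDifferentiable 𝓘(ℂ, E') 𝓘(ℂ, Y →L[ℂ] Y) (fun n => P (r n)) := h.hP.comp hr
  let Λ : N → ℂ := fun n => ξ (r n) (y n)
  have hΛ : ∀ n (t : TangentSpace 𝓘(ℂ, E') n), MDifferentiableAt 𝓘(ℂ, E') 𝓘(ℂ, ℂ) Λ n ∧
      dd Λ n t = dd ξ (r n) (mfderiv 𝓘(ℂ, E') 𝓘(ℂ, E) r n t) (y n) + ξ (r n) (dd y n t) := by
    intro n t
    have h1 := dd_eval (hξr n) (hy n) t
    rw [dd_pull (hr n) (hξ (r n)) t] at h1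
    exact h1
  have hφ : ∀ n (t : TangentSpace 𝓘(ℂ, E') n),
      MDifferentiableAt 𝓘(ℂ, E') 𝓘(ℂ, ℂ) (fun n => phi (Λ n)) n ∧
      dd (fun n => phi (Λ n)) n t = deriv phi (Λ n) * dd Λ n t := by
    intro n t
    refine ⟨(phi_diff (Λ n)).mdifferentiableAt.comp n (hΛ n t).1, ?_⟩
    rw [dd_comp (Φ := phi) (hΛ n t).1 (phi_diff _) t]
    rw [(phi_diff (Λ n)).hasDerivAt.hasFDerivAt.fderiv]
    simp [mul_comm]
  have hsm : ∀ n (t : TangentSpace 𝓘(ℂ, E') n),
      MDifferentiableAt 𝓘(ℂ, E') 𝓘(ℂ, Y) (fun n => phi (Λ n) • y n) n ∧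
      dd (fun n => phi (Λ n) • y n) n t =
        phi (Λ n) • dd y n t + (deriv phi (Λ n) * dd Λ n t) • y n := by
    intro n t
    have h1 := dd_smul (hφ n t).1 (hy n) t
    rw [(hφ n t).2] at h1
    exact h1
  have hG : ∀ n (t : TangentSpace 𝓘(ℂ, E') n),
      MDifferentiableAt 𝓘(ℂ, E') 𝓘(ℂ, Y) (fun n => g (r n) + phi (Λ n) • y n) n ∧
      dd (fun n => g (r n) + phi (Λ n) • y n) n t =
        dd g (r n) (mfderiv 𝓘(ℂ, E') 𝓘(ℂ, E) r n t) +
        (phi (Λ n) • dd y n t + (deriv phi (Λ n) * dd Λ n t) • y n) := by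
    intro n t
    have h1 := dd_add (hgr n) (hsm n t).1 t
    rw [dd_pull (hr n) (h.hg (r n)) t, (hsm n t).2] at h1
    exact h1
  refine ⟨fun n => (f (r n), g (r n) + phi (Λ n) • y n), fun n =>
    (hfr n).prodMk_space (hG n 0).1, ?_⟩
  intro n t ht
  rw [dd_prod (hfr n) (hG n t).1 t, dd_pull (hr n) (h.hf (r n)) t, (hG n t).2] at ht
  set v := mfderiv 𝓘(ℂ, E') 𝓘(ℂ, E) r n t with hv
  have ht1 : dd f (r n) v = 0 := congrArg Prod.fst ht
  have ht2 : dd g (r n) v + (phi (Λ n) • dd y n t + (deriv phi (Λ n) * dd Λ n t) • y n) = 0 :=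
    congrArg Prod.snd ht
  -- differentiate `P y = y`
  have hD : dd y n t = Λ n • dd g (r n) v + P (r n) (dd y n t) := by
    have h1 := (dd_eval (hPr n) (hy n) t).2
    rw [dd_pull (hr n) (h.hP (r n)) t] at h1
    have h2 : (fun n => P (r n) (y n)) = y := funext hPy
    rw [h2] at h1
    have h3 := hξg (r n) v ht1 (y n)
    rw [hPy n] at h3
    rw [h3] at h1
    exact h1
  -- `dg(v) = 0`
  have hPg : P (r n) (dd g (r n) v) = 0 := h.ker (r n) v ht1
  have h1 : dd g (r n) v = 0 := by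
    have h2 := congrArg (P (r n)) ht2
    rw [map_add, map_add, map_smul, map_smul, hPg, hPy n, map_zero, zero_add] at h2
    have h3 : (1 + phi (Λ n) * Λ n) • dd g (r n) v = 0 := by
      have h4 : dd g (r n) v + phi (Λ n) • (dd y n t - P (r n) (dd y n t)) = 0 := by
        have h5 : dd g (r n) v + (phi (Λ n) • dd y n t + (deriv phi (Λ n) * dd Λ n t) • y n) -
            (phi (Λ n) • P (r n) (dd y n t) + (deriv phi (Λ n) * dd Λ n t) • y n) = 0 := by
          rw [ht2, h2, sub_zero]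
        rw [← h5, smul_sub]
        abel
      have h6 : dd y n t - P (r n) (dd y n t) = Λ n • dd g (r n) v := by
        rw [sub_eq_iff_eq_add]
        exact hD
      rw [h6, smul_smul] at h4
      rw [add_smul, one_smul]
      exact h4
    have h7 : 1 + phi (Λ n) * Λ n ≠ 0 := by
      have h8 : 1 + phi (Λ n) * Λ n = Complex.exp (Λ n) := by
        rw [mul_comm, phi_mul]
        ring
      rw [h8]
      exact Complex.exp_ne_zero _
    exact (smul_eq_zero.1 h3).resolve_left h7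
  have hv0 : v = 0 := h.inj (r n) v ht1 h1
  refine hinj n t hv0 ?_
  -- now `dy(t)` lies in the range of `P`
  rw [h1, smul_zero, zero_add] at hD
  rw [h1, zero_add] at ht2
  have hdΛ : dd Λ n t = ξ (r n) (dd y n t) := by
    rw [(hΛ n t).2, ← hv, hv0]
    have : dd ξ (r n) (0 : TangentSpace 𝓘(ℂ, E) (r n)) = 0 := map_zero _
    rw [this]
    simp
  by_cases hy0 : y n = 0
  · have hL0 : Λ n = 0 := by
      change ξ (r n) (y n) = 0
      rw [hy0, map_zero]
    rw [hy0, smul_zero, add_zero, hL0, phi_zero, one_smul] at ht2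
    exact ht2
  · obtain ⟨V, hV, -, hV0⟩ := h.exists_ker hd (r n)
    obtain ⟨c, hc⟩ := line_of_range hY hV0 (h.ker (r n) V hV) hy0 (hPy n) hD.symm
    rw [hdΛ, hc, map_smul, smul_eq_mul, smul_smul, ← add_smul] at ht2
    have h9 := (smul_eq_zero.1 ht2).resolve_right hy0
    have h10 : c * Complex.exp (Λ n) = 0 := by
      rw [← phi_deriv, ← h9]
      change _ = phi (Λ n) * c + deriv phi (Λ n) * (c * Λ n)
      ring
    rw [hc, (mul_eq_zero.1 h10).resolve_right (Complex.exp_ne_zero _), zero_smul]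

end Pool.Agent.ImmPR
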