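import Pool.Agent.Lib.MP_fcd94d_an_PR.Chart

/-!
`f : M → W` with one-dimensional kernels `ker df`, `g : M → Y`, `P : M → End Y` a holomorphic
family of projections whose kernel contains `dg (ker df)`, `dim Y = 2`, `(df, dg)` injective. Then
`dP(v) (P y) = ξ(y) dg(v)` for all `v ∈ ker df`, with a holomorphic `ξ : M → Y*`.
-/

set_option autoImplicit false
set_option linter.unusedSectionVars false
set_option linter.style.haveILetI false

open Complex Metric Set Filter Topology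
open scoped Manifold

namespace Pool.Agent.ImmPR

variable {E : Type*} [NormedAddCommGroup E] [NormedSpace ℂ E]
variable {M : Type*} [TopologicalSpace M] [ChartedSpace E M] [IsManifold 𝓘(ℂ, E) 1 M]
variable {W : Type*} [NormedAddCommGroup W] [NormedSpace ℂ W]
variable {Y : Type*} [NormedAddCommGroup Y] [NormedSpace ℂ Y]

/-- the data -/
structure Dat (f : M → W) (g : M → Y) (P : M → Y →L[ℂ] Y) : Prop where
  hf : MDifferentiable 𝓘(ℂ, E) 𝓘(ℂ, W) f
  hg : MDifferentiable 𝓘(ℂ, E) 𝓘(ℂ, Y) g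
  hP : MDifferentiable 𝓘(ℂ, E) 𝓘(ℂ, Y →L[ℂ] Y) P
  inj : ∀ (x : M) (v : TangentSpace 𝓘(ℂ, E) x), dd f x v = 0 → dd g x v = 0 → v = 0
  proj : ∀ x y, P x (P x y) = P x y
  ne : ∀ x, P x ≠ 0
  ker : ∀ (x : M) (v : TangentSpace 𝓘(ℂ, E) x), dd f x v = 0 → P x (dd g x v) = 0

/-- `ξ` is a good value at `x` -/
def GoodAt (E : Type*) [NormedAddCommGroup E] [NormedSpace ℂ E] {M : Type*} [TopologicalSpace M]
    [ChartedSpace E M] (f : M → W) (g : M → Y) (P : M → Y →L[ℂ] Y) (x : M) (ξ : Y →L[ℂ] ℂ) :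
    Prop :=
  ∀ v : TangentSpace 𝓘(ℂ, E) x, dd f x v = 0 → ∀ y : Y,
    dd P x v (P x y) = ξ y • dd g x v

variable [FiniteDimensional ℂ E] [FiniteDimensional ℂ W] [FiniteDimensional ℂ Y]
variable {f : M → W} {g : M → Y} {P : M → Y →L[ℂ] Y}

theorem Dat.exists_ker (h : Dat (E := E) f g P)
    (hd : Module.finrank ℂ E = Module.finrank ℂ W + 1) (x : M) :
    ∃ v : TangentSpace 𝓘(ℂ, E) x, dd f x v = 0 ∧ v ≠ 0 ∧ dd g x v ≠ 0 := by
  have h1 : ∃ v : E, v ≠ 0 ∧ (mfderiv 𝓘(ℂ, E) 𝓘(ℂ, W) f x : E →L[ℂ] W) v = 0 := by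
    by_contra hne
    push Not at hne
    let A : E →L[ℂ] W := mfderiv 𝓘(ℂ, E) 𝓘(ℂ, W) f x
    have hinj : Function.Injective A.toLinearMap := by
      rw [← LinearMap.ker_eq_bot, LinearMap.ker_eq_bot']
      intro v hv
      by_contra h0
      exact hne v h0 hv
    have := LinearMap.finrank_le_finrank_of_injective hinj
    omega
  obtain ⟨v, hv, hv0⟩ := h1
  exact ⟨v, hv0, hv, fun h0 => hv (h.inj x v hv0 h0)⟩

/-- the derivative of a projection maps the range into the kernel -/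
theorem Dat.dP_ker (h : Dat (E := E) f g P) (x : M) (v : TangentSpace 𝓘(ℂ, E) x) (y : Y) :
    P x (dd P x v (P x y)) = 0 := by
  have e1 := (dd_eval (h.hP x) (mdifferentiableAt_const (c := y)) v)
  have e2 := (dd_eval (h.hP x) e1.1 v).2
  rw [dd_const, map_zero, add_zero] at e1
  have h3 : (fun z => P z (P z y)) = fun z => P z y := by
    funext z
    exact h.proj z y
  rw [h3, e1.2] at e2
  have h4 := congrArg (P x) e2
  rw [map_add, h.proj] at h4
  exact (add_eq_right.1 h4.symm)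

theorem line_of_ker {T : Y →L[ℂ] Y} (hY : Module.finrank ℂ Y = 2) (hT : T ≠ 0) {z w : Y}
    (hz : z ≠ 0) (hTz : T z = 0) (hTw : T w = 0) : ∃ c : ℂ, w = c • z := by
  have h1 := T.toLinearMap.finrank_range_add_finrank_ker
  rw [hY] at h1
  have h2 : Module.finrank ℂ (LinearMap.range T.toLinearMap) ≠ 0 := by
    intro h0
    rw [Submodule.finrank_eq_zero, LinearMap.range_eq_bot] at h0
    exact hT (ContinuousLinearMap.coe_injective h0)
  let z' : LinearMap.ker T.toLinearMap := ⟨z, hTz⟩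
  have hz' : z' ≠ 0 := fun h => hz (congrArg Subtype.val h)
  have h3 : Module.finrank ℂ (LinearMap.ker T.toLinearMap) ≠ 0 := by
    intro h0
    rw [Submodule.finrank_eq_zero] at h0
    have : z ∈ (⊥ : Submodule ℂ Y) := by
      rw [← h0]
      exact hTz
    exact hz ((Submodule.mem_bot ℂ).1 this)
  have h4 : Module.finrank ℂ (LinearMap.ker T.toLinearMap) = 1 := by omega
  obtain ⟨c, hc⟩ := (finrank_eq_one_iff_of_nonzero' z' hz').1 h4 ⟨w, hTw⟩
  exact ⟨c, (congrArg Subtype.val hc).symm⟩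

theorem line_of_range {T : Y →L[ℂ] Y} (hY : Module.finrank ℂ Y = 2) {z y w : Y}
    (hz : z ≠ 0) (hTz : T z = 0) (hy : y ≠ 0) (hTy : T y = y) (hTw : T w = w) :
    ∃ c : ℂ, w = c • y := by
  refine line_of_ker (T := ContinuousLinearMap.id ℂ Y - T) hY ?_ hy ?_ ?_
  · intro h0
    have h1 := congrArg (fun A : Y →L[ℂ] Y => A z) h0
    simp only [sub_apply, ContinuousLinearMap.id_apply, hTz, sub_zero] at h1
    exact hz h1
  · simp [hTy]
  · simp [hTw]

/-- a good function exists near every point -/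
theorem Dat.local (h : Dat (E := E) f g P)
    (hd : Module.finrank ℂ E = Module.finrank ℂ W + 1) (hY : Module.finrank ℂ Y = 2) (x₀ : M) :
    ∃ Ξ : E → Y →L[ℂ] ℂ, DifferentiableAt ℂ Ξ (chartAt E x₀ x₀) ∧
      ∀ᶠ x in 𝓝 x₀, GoodAt E f g P x (Ξ (chartAt E x₀ x)) := by
  set e := chartAt E x₀ with he
  have hop := e.open_target
  have hf := fun_diff h.hf x₀
  have hg := fun_diff h.hg x₀
  have hP := fun_diff h.hP x₀
  rw [← he] at hf hg hP
  have hcE : CompleteSpace E := FiniteDimensional.complete ℂ E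
  have hx₀ : x₀ ∈ e.source := mem_chart_source E x₀
  have hy₀ : e x₀ ∈ e.target := e.map_source hx₀
  obtain ⟨V₀, hV₀, hV₀0, hgV₀⟩ := h.exists_ker hd x₀
  -- the derivatives in the chart
  have hev : ∀ x ∈ e.source, ∀ v : TangentSpace 𝓘(ℂ, E) x,
      dd f x v = fderiv ℂ (f ∘ e.symm) (e x) (dd e x v) ∧
      dd g x v = fderiv ℂ (g ∘ e.symm) (e x) (dd e x v) ∧
      dd P x v = fderiv ℂ (P ∘ e.symm) (e x) (dd e x v) :=
    fun x hx v => ⟨deriv_eq h.hf x₀ x hx v, deriv_eq h.hg x₀ x hx v, deriv_eq h.hP x₀ x hx v⟩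
  set U₀ : E := dd e x₀ V₀ with hU₀
  have hU₀0 : U₀ ≠ 0 := by
    intro h0
    obtain ⟨-, k2, -⟩ := hev x₀ hx₀ V₀
    rw [← hU₀, h0, map_zero] at k2
    exact hgV₀ k2
  obtain ⟨μ, -, hμ⟩ := exists_dual_vector ℂ U₀ (norm_ne_zero_iff.2 hU₀0)
  have hμ0 : μ U₀ ≠ 0 := by
    rw [hμ]
    simpa using hU₀0
  let L : E → E →L[ℂ] W × ℂ := fun y => (fderiv ℂ (f ∘ e.symm) y).prod μ
  have hL : DifferentiableAt ℂ L (e x₀) := by
    refine diff_clm fun v => ?_
    have h1 : DifferentiableAt ℂ (fun y => fderiv ℂ (f ∘ e.symm) y v) (e x₀) :=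
      (diff_fderiv hop hf hy₀).clm_apply (differentiableAt_const v)
    exact h1.prodMk (differentiableAt_const _)
  have hLinj : Function.Injective (L (e x₀)).toLinearMap := by
    rw [← LinearMap.ker_eq_bot, LinearMap.ker_eq_bot']
    intro u hu
    have hu1 : fderiv ℂ (f ∘ e.symm) (e x₀) u = 0 := congrArg Prod.fst hu
    have hu2 : μ u = 0 := congrArg Prod.snd hu
    obtain ⟨v, hv⟩ := chart_surj x₀ x₀ hx₀ u
    rw [← he] at hv
    obtain ⟨k1, k2, -⟩ := hev x₀ hx₀ v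
    rw [hv] at k1 k2
    have hv0 : dd f x₀ v = 0 := k1.trans hu1
    obtain ⟨c, hc⟩ := line_of_ker hY (h.ne x₀) hgV₀ (h.ker x₀ V₀ hV₀) (h.ker x₀ v hv0)
    have h2 : v - c • V₀ = 0 := by
      apply h.inj x₀
      · rw [dd_vsub, dd_vsmul, hv0, hV₀, smul_zero, sub_zero]
      · rw [dd_vsub, dd_vsmul, hc, sub_self]
    have h3 : u = c • U₀ := by
      rw [← hv, hU₀, sub_eq_zero.1 h2, dd_vsmul]
    rw [h3, map_smul, smul_eq_mul] at hu2
    rcases mul_eq_zero.1 hu2 with h4 | h4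
    · rw [h3, h4, zero_smul]
    · exact absurd h4 hμ0
  obtain ⟨T, hT⟩ : ∃ T : E ≃L[ℂ] W × ℂ, (T : E →L[ℂ] W × ℂ) = L (e x₀) := by
    have hfr : Module.finrank ℂ E = Module.finrank ℂ (W × ℂ) := by
      rw [Module.finrank_prod, Module.finrank_self, hd]
    refine ⟨(LinearEquiv.ofInjectiveOfFinrankEq (L (e x₀)).toLinearMap hLinj
      hfr).toContinuousLinearEquiv, ?_⟩
    ext1 v
    rfl
  let V : E → E := fun y => (L y).inverse (0, 1)
  have hV : DifferentiableAt ℂ V (e x₀) := by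
    have h1 : DifferentiableAt ℂ ContinuousLinearMap.inverse (L (e x₀)) := by
      rw [← hT]
      exact (contDiffAt_map_inverse (n := 1) T).differentiableAt one_ne_zero
    have h2 : DifferentiableAt ℂ (fun y => (L y).inverse) (e x₀) := h1.comp (e x₀) hL
    exact h2.clm_apply (differentiableAt_const _)
  have hinv : ∀ᶠ y in 𝓝 (e x₀), ∃ T : E ≃L[ℂ] W × ℂ, (T : E →L[ℂ] W × ℂ) = L y := by
    have h1 : ∀ᶠ A : E →L[ℂ] W × ℂ in 𝓝 (L (e x₀)), A ∈ range ((↑) : (E ≃L[ℂ] W × ℂ) → _) := by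
      rw [← hT]
      exact ContinuousLinearEquiv.nhds T
    exact (hL.continuousAt.eventually h1)
  obtain ⟨ω, -, hω⟩ := exists_dual_vector ℂ (dd g x₀ V₀) (norm_ne_zero_iff.2 hgV₀)
  have hω0 : ω (dd g x₀ V₀) ≠ 0 := by
    rw [hω]
    simpa using hgV₀
  have hVU : ∃ c : ℂ, U₀ = c • V (e x₀) := by
    refine ⟨μ U₀, ?_⟩
    have h1 : T U₀ = μ U₀ • ((0 : W), (1 : ℂ)) := by
      have : T U₀ = L (e x₀) U₀ := by rw [← hT]; rfl
      rw [this]
      change (fderiv ℂ (f ∘ e.symm) (e x₀) U₀, μ U₀) = _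
      rw [← (hev x₀ hx₀ V₀).1, hV₀]
      simp
    change U₀ = μ U₀ • (L (e x₀)).inverse (0, 1)
    rw [← hT, ContinuousLinearMap.inverse_equiv]
    apply T.injective
    rw [h1, ContinuousLinearEquiv.coe_coe, map_smul, T.apply_symm_apply]
  have hdω : DifferentiableAt ℂ (fun y => ω (fderiv ℂ (g ∘ e.symm) y (V y))) (e x₀) :=
    ω.differentiableAt.comp (e x₀) ((diff_fderiv hop hg hy₀).clm_apply hV)
  have hω1 : ω (fderiv ℂ (g ∘ e.symm) (e x₀) (V (e x₀))) ≠ 0 := by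
    obtain ⟨c, hc⟩ := hVU
    intro h0
    apply hω0
    rw [(hev x₀ hx₀ V₀).2.1, ← hU₀, hc, map_smul, map_smul, h0, smul_zero]
  refine ⟨fun y => (ω (fderiv ℂ (g ∘ e.symm) y (V y)))⁻¹ •
    ω.comp ((fderiv ℂ (P ∘ e.symm) y (V y)).comp ((P ∘ e.symm) y)), ?_, ?_⟩
  · refine diff_clm fun η => ?_
    have h1 : DifferentiableAt ℂ (fun y => fderiv ℂ (P ∘ e.symm) y (V y)) (e x₀) :=
      (diff_fderiv hop hP hy₀).clm_apply hV
    have h2 : DifferentiableAt ℂ (fun y => (P ∘ e.symm) y η) (e x₀) :=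
      ((hP _ hy₀).differentiableAt (hop.mem_nhds hy₀)).clm_apply (differentiableAt_const η)
    have h3 := ω.differentiableAt.comp (e x₀) (h1.clm_apply h2)
    exact (hdω.inv hω1).smul h3
  · have hcont : ContinuousAt e x₀ := e.continuousAt hx₀
    have h1 : ∀ᶠ y in 𝓝 (e x₀), ω (fderiv ℂ (g ∘ e.symm) y (V y)) ≠ 0 :=
      hdω.continuousAt.eventually_ne hω1
    filter_upwards [e.open_source.mem_nhds hx₀, hcont.eventually h1, hcont.eventually hinv]
      with x hx hωx hTx v hv η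
    obtain ⟨T', hT'⟩ := hTx
    obtain ⟨k1, k2, k3⟩ := hev x hx v
    set u : E := dd e x v with hu
    have hs : e.symm (e x) = x := e.left_inv hx
    -- `V (e x)` comes from a tangent vector
    obtain ⟨v', hv'⟩ := chart_surj x₀ x hx (V (e x))
    rw [← he] at hv'
    obtain ⟨l1, l2, l3⟩ := hev x hx v'
    rw [hv'] at l1 l2 l3
    have hLV : T' (V (e x)) = ((0 : W), (1 : ℂ)) := by
      change T' ((L (e x)).inverse (0, 1)) = _
      rw [← hT', ContinuousLinearMap.inverse_equiv]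
      exact T'.apply_symm_apply _
    have hLV' : L (e x) (V (e x)) = ((0 : W), (1 : ℂ)) := by
      rw [← hLV, ← hT']
      rfl
    have hfv' : dd f x v' = 0 := l1.trans (congrArg Prod.fst hLV')
    have huV : u = μ u • V (e x) := by
      apply T'.injective
      rw [map_smul, hLV]
      have : T' u = L (e x) u := by rw [← hT']; rfl
      rw [this]
      change (fderiv ℂ (f ∘ e.symm) (e x) u, μ u) = _
      rw [← k1, hv]
      simp
    have hz : fderiv ℂ (g ∘ e.symm) (e x) (V (e x)) ≠ 0 := fun h0 => hωx (by rw [h0, map_zero])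
    have hPx : (P ∘ e.symm) (e x) = P x := by rw [Function.comp_apply, hs]
    obtain ⟨c, hc⟩ := line_of_ker hY (h.ne x) (z := dd g x v') (w := dd P x v' (P x η))
      (by rw [l2]; exact hz) (h.ker x v' hfv') (h.dP_ker x v' η)
    rw [k3, k2, huV]
    simp only [map_smul, smul_apply, ContinuousLinearMap.comp_apply, hPx, smul_eq_mul]
    rw [← l3, ← l2, hc, map_smul, smul_eq_mul]
    have hω' : ω (dd g x v') ≠ 0 := by
      rw [l2]
      exact hωx
    rw [smul_smul, smul_smul]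
    congr 1
    field_simp

/-- the function `ξ` -/
theorem Dat.exists_xi (h : Dat (E := E) f g P)
    (hd : Module.finrank ℂ E = Module.finrank ℂ W + 1) (hY : Module.finrank ℂ Y = 2) :
    ∃ ξ : M → Y →L[ℂ] ℂ, MDifferentiable 𝓘(ℂ, E) 𝓘(ℂ, Y →L[ℂ] ℂ) ξ ∧
      ∀ x, GoodAt E f g P x (ξ x) := by
  choose Ξ hΞ1 hΞ2 using h.local hd hY
  have hself : ∀ x, GoodAt E f g P x (Ξ x (chartAt E x x)) := fun x => (hΞ2 x).self_of_nhds
  refine ⟨fun x => Ξ x (chartAt E x x), ?_, hself⟩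
  intro x₀
  have huniq : ∀ x (l l' : Y →L[ℂ] ℂ), GoodAt E f g P x l → GoodAt E f g P x l' → l = l' := by
    intro x l l' hl hl'
    obtain ⟨v, hv, -, hv0⟩ := h.exists_ker hd x
    ext1 y
    exact smul_left_injective ℂ hv0 ((hl v hv y).symm.trans (hl' v hv y))
  have hx₀ : x₀ ∈ (chartAt E x₀).source := mem_chart_source E x₀
  have h1 : (fun x => Ξ x (chartAt E x x)) =ᶠ[𝓝 x₀] Ξ x₀ ∘ (chartAt E x₀) := by
    filter_upwards [hΞ2 x₀] with x hx
    exact huniq x _ _ (hself x) hx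
  have h2 : MDifferentiableAt 𝓘(ℂ, E) 𝓘(ℂ, Y →L[ℂ] ℂ) (Ξ x₀ ∘ (chartAt E x₀)) x₀ :=
    ((hΞ1 x₀).mdifferentiableAt).comp x₀ (chart_mdiff x₀ x₀ hx₀)
  exact h2.congr_of_eventuallyEq h1

end Pool.Agent.ImmPR
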